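import Mathlib

/-!
Project LP (helper41, MP_dbfdb2_gt): the linear programming bound for sphere packings cannot prove
a better exponent than `(1/2) log_2 (2 π / e)`.  Definitions and statements of the pieces.
-/

set_option autoImplicit false

open MeasureTheory Filter Topology

open scoped FourierTransform

namespace Pool.Agent.TH41.LP

/-! ### Even entire functions with zeros on the imaginary axis -/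

/-- `cosh √u`, an entire function of `u` -/
noncomputable def Csh (u : ℂ) : ℂ := ∑' n : ℕ, u ^ n / ((2 * n).factorial : ℂ)

/-- finite families of weights `κ` and heights `c` -/
structure Fam where
  ι : Type
  inst : Fintype ι
  κ : ι → ℝ
  c : ι → ℝ
  κ_pos : ∀ i, 0 < κ i
  c_pos : ∀ i, 0 < c i

attribute [instance] Fam.inst

/-- the real part of the square root of `(x + i τ)² + c²` -/
noncomputable def pp (c x τ : ℝ) : ℝ :=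
  √((√((x ^ 2 - τ ^ 2 + c ^ 2) ^ 2 + 4 * x ^ 2 * τ ^ 2) + (x ^ 2 - τ ^ 2 + c ^ 2)) / 2)

noncomputable def Fam.B (F : Fam) (x τ : ℝ) : ℝ :=
  ∑ i, F.κ i * (√(x ^ 2 + F.c i ^ 2) - pp (F.c i) x τ)

noncomputable def Fam.A0 (F : Fam) (x : ℝ) : ℝ :=
  ∑ i, F.κ i * (√(x ^ 2 + F.c i ^ 2) - F.c i)

noncomputable def Fam.A1 (F : Fam) (x : ℝ) : ℝ :=
  ∑ i, F.κ i * (x / √(x ^ 2 + F.c i ^ 2))

noncomputable def Fam.A2 (F : Fam) (x : ℝ) : ℝ :=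
  ∑ i, F.κ i * (F.c i ^ 2 / √(x ^ 2 + F.c i ^ 2) ^ 3)

noncomputable def lg (a τ : ℝ) : ℝ := 1 / 2 * Real.log (1 + τ ^ 2 / a ^ 2)

/-- the weight of the mixture -/
noncomputable def Wt (β c : ℝ) : ℝ := c / √(β ^ 2 + c ^ 2) ^ 3

/-! ### Statements about the families -/

/-- CSH -/
def S_csh : Prop := Differentiable ℂ Csh ∧ ∀ z : ℂ, Csh (z ^ 2) = Complex.cosh z

/-- ROOT: the square root of `(σ + i t)² + c²` is `P + i σ t / P` -/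
def S_root : Prop := ∀ c σ t : ℝ, 0 < c → σ ≠ 0 →
  0 < pp c |σ| t ∧
  (((pp c |σ| t : ℝ) : ℂ) + ((σ * t / pp c |σ| t : ℝ) : ℂ) * Complex.I) ^ 2 =
    ((σ : ℂ) + (t : ℂ) * Complex.I) ^ 2 + (c : ℂ) ^ 2

/-- PP: elementary properties of `pp` -/
def S_pp : Prop :=
  (∀ c x τ : ℝ, 0 < c → 0 < x → x ≤ pp c x τ ∧ pp c x τ ≤ √(x ^ 2 + c ^ 2) ∧
    pp c x τ ^ 4 = (x ^ 2 - τ ^ 2 + c ^ 2) * pp c x τ ^ 2 + x ^ 2 * τ ^ 2) ∧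
  (∀ c x τ D : ℝ, 0 ≤ D → pp (D * c) (D * x) (D * τ) = D * pp c x τ) ∧
  (∀ c x τ : ℝ, 0 < c → 0 < x →
    √(x ^ 2 + c ^ 2) - pp c x τ =
      τ ^ 2 * ((1 - x ^ 2 / pp c x τ ^ 2) / (√(x ^ 2 + c ^ 2) + pp c x τ))) ∧
  (∀ c x τ : ℝ, 0 < c → 0 < x →
    0 ≤ √(x ^ 2 + c ^ 2) - pp c x τ ∧ √(x ^ 2 + c ^ 2) - pp c x τ ≤ τ ^ 2 / c) ∧
  (∀ c x τ : ℝ, 0 < c → 0 < x → |τ| ≤ c / 2 → 3 / 4 * c ^ 2 ≤ pp c x τ ^ 2 ∧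
    |x * τ / pp c x τ - x * τ / √(x ^ 2 + c ^ 2)| ≤ 2 * |τ| ^ 3 / c ^ 2)

/-- RIE: the functions of the mixture are uniformly continuous in `c`, with an error `τ²` -/
def S_rie : Prop := ∀ cm cM δ : ℝ, 0 < cm → cm < cM → 0 < δ → ∃ h : ℝ, 0 < h ∧
  ∀ c c' : ℝ, cm ≤ c → c ≤ cM → cm ≤ c' → c' ≤ cM → |c - c'| ≤ h →
    (∀ x τ : ℝ, 0 < x →
      |(√(x ^ 2 + c ^ 2) - pp c x τ) - (√(x ^ 2 + c' ^ 2) - pp c' x τ)| ≤ δ * τ ^ 2) ∧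
    (∀ x : ℝ, 0 ≤ x → |x / √(x ^ 2 + c ^ 2) - x / √(x ^ 2 + c' ^ 2)| ≤ δ)

/-- INT1: the mixture identity -/
def S_int1 : Prop := ∀ β x τ : ℝ, 0 < β → 0 < x →
  IntegrableOn (fun c => Wt β c * (√(x ^ 2 + c ^ 2) - pp c x τ)) (Set.Ioi 0) ∧
  ∫ c in Set.Ioi (0 : ℝ), Wt β c * (√(x ^ 2 + c ^ 2) - pp c x τ) = lg (β + x) τ

/-- INT2: the derivative on the real axis -/
def S_int2 : Prop := ∀ β x : ℝ, 0 < β → 0 ≤ x →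
  IntegrableOn (fun c => Wt β c * (x / √(x ^ 2 + c ^ 2))) (Set.Ioi 0) ∧
  ∫ c in Set.Ioi (0 : ℝ), Wt β c * (x / √(x ^ 2 + c ^ 2)) = x / (β * (β + x))

/-- BLOCK -/
def S_block : Prop := ∀ β : ℝ, 1 ≤ β → ∀ δ : ℝ, 0 < δ → ∃ F : Fam,
  (∀ x : ℝ, 0 < x → ∀ τ : ℝ, |F.B x τ - lg (β + x) τ| ≤ δ * τ ^ 2) ∧
  (∀ x : ℝ, 0 ≤ x → |F.A1 x - x / (β * (β + x))| ≤ δ)

/-- a family close to the grid -/
def Grid (N H : ℕ) (δ : ℝ) (F : Fam) : Prop :=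
  (∀ x : ℝ, 0 < x → ∀ τ : ℝ,
    |F.B x τ - 1 / (2 * (H : ℝ)) * ∑ k ∈ Finset.range N, ∑ l ∈ Finset.range H,
      lg (2 * (k : ℝ) + 1 + (l : ℝ) / H + x) τ| ≤ δ * τ ^ 2) ∧
  (∀ x : ℝ, 0 ≤ x →
    |F.A1 x - 1 / (2 * (H : ℝ)) * ∑ k ∈ Finset.range N, ∑ l ∈ Finset.range H,
      x / ((2 * (k : ℝ) + 1 + (l : ℝ) / H) * (2 * (k : ℝ) + 1 + (l : ℝ) / H + x))| ≤ δ)

/-- GRID -/
def S_grid : Prop := ∀ N H : ℕ, 0 < H → ∀ δ : ℝ, 0 < δ → ∃ F : Fam, Grid N H δ F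

noncomputable def Phi (x τ : ℝ) : ℝ :=
  1 / 2 * τ * Real.arctan (τ / (1 + x)) - 1 / 4 * (1 + x) * Real.log (1 + τ ^ 2 / (1 + x) ^ 2)

/-- the properties of the family that are used -/
structure Pot (η C : ℝ) (F : Fam) : Prop where
  p1 : ∀ x : ℝ, 0 < x → ∀ τ : ℝ, |F.B x τ + F.B (1 + x) τ - Phi x τ| ≤ η * τ ^ 2
  p2 : ∀ x : ℝ, 0 < x → x ≤ 1 / 2 → ∀ τ : ℝ,
    Phi (-x) τ - F.B x τ - F.B (1 - x) τ ≤ (η + 4 * x) * τ ^ 2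
  p3 : ∀ x : ℝ, 0 ≤ x → x ≤ C →
    |F.A1 x + F.A1 (1 + x) - 1 / 2 * Real.log (Real.pi / 2 * (1 + x))| ≤ η
  p4 : ∀ u : ℝ, 0 ≤ u → u ≤ 1 / 2 → ∀ x y : ℝ, 0 ≤ x → 1 - u ≤ y →
    F.A2 x + F.A2 y ≤ 1 / 2 + η + 4 * u

/-- P12 -/
def S_p12 : Prop := ∀ η : ℝ, 0 < η → ∃ N0 : ℕ, ∀ N H : ℕ, N0 ≤ N → N0 ≤ H → 0 < H →
  ∀ F : Fam, Grid N H (η / 8) F →
  (∀ x : ℝ, 0 < x → ∀ τ : ℝ, |F.B x τ + F.B (1 + x) τ - Phi x τ| ≤ η * τ ^ 2) ∧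
  (∀ x : ℝ, 0 < x → x ≤ 1 / 2 → ∀ τ : ℝ,
    Phi (-x) τ - F.B x τ - F.B (1 - x) τ ≤ (η + 4 * x) * τ ^ 2)

/-- P3 -/
def S_p3 : Prop := ∀ η C : ℝ, 0 < η → 0 < C → ∃ N0 : ℕ, ∀ N : ℕ, N0 ≤ N → ∃ H0 : ℕ,
  ∀ H : ℕ, H0 ≤ H → 0 < H → ∀ F : Fam, Grid N H (η / 8) F →
  ∀ x : ℝ, 0 ≤ x → x ≤ C →
    |F.A1 x + F.A1 (1 + x) - 1 / 2 * Real.log (Real.pi / 2 * (1 + x))| ≤ η

/-- P4 -/
def S_p4 : Prop := ∀ η : ℝ, 0 < η → ∃ N0 : ℕ, ∀ N H : ℕ, N0 ≤ H → 0 < H →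
  ∀ F : Fam, Grid N H (η / 8) F →
  ∀ u : ℝ, 0 ≤ u → u ≤ 1 / 2 → ∀ x y : ℝ, 0 ≤ x → 1 - u ≤ y →
    F.A2 x + F.A2 y ≤ 1 / 2 + η + 4 * u

def S_pot : Prop := ∀ η C : ℝ, 0 < η → 0 < C → ∃ F : Fam, Pot η C F

/-! ### The Gamma function -/

/-- the digamma function on the positive reals -/
noncomputable def dg (X : ℝ) : ℝ :=
  -Real.eulerMascheroniConstant + ∑' k : ℕ, (1 / ((k : ℝ) + 1) - 1 / (X + k))

noncomputable def gl (X y : ℝ) : ℝ :=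
  y * Real.arctan (y / X) - 1 / 2 * X * Real.log (1 + y ^ 2 / X ^ 2)

/-- GAM: absolute value -/
def S_gam : Prop := ∀ X y : ℝ, 0 < X →
  ‖Complex.Gamma (X + 1) / Complex.Gamma (X + 1 - y * Complex.I)‖ ≤ Real.exp (gl X y) ∧
  Real.exp (gl X y - 1 / 2 * Real.log (1 + y ^ 2 / X ^ 2)) ≤
    ‖Complex.Gamma (X + 1) / Complex.Gamma (X + 1 - y * Complex.I)‖

/-- GPH: argument -/
def S_gph : Prop := ∀ X y : ℝ, 1 ≤ X → ∃ θ : ℝ, |θ| ≤ |y| ^ 3 / X ^ 2 ∧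
  Complex.Gamma X / Complex.Gamma (X - y * Complex.I) =
    (‖Complex.Gamma X / Complex.Gamma (X - y * Complex.I)‖ : ℂ) *
      Complex.exp (((dg X * y + θ : ℝ) : ℂ) * Complex.I)

/-- GRE: real arguments -/
def S_gre : Prop :=
  ContinuousOn dg (Set.Ioi 0) ∧
  (∀ X : ℝ, 0 < X → dg X ≤ Real.log X) ∧
  (∀ X u : ℝ, 0 < X → 0 ≤ u → u < X →
    Real.Gamma X / Real.Gamma (X - u) ≤ Real.exp (u * dg X - u ^ 2 / (2 * X))) ∧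
  (∀ X h : ℝ, 0 < X → 0 ≤ h → dg X - dg (X + h) ≤ -(h / (X + h))) ∧
  (∀ X u : ℝ, 0 < X → 0 ≤ u → Real.Gamma (X + 1) / Real.Gamma (X + 1 + u) ≤
    Real.exp (-((X + u) * Real.log (X + u) - X * Real.log X - u)))

/-! ### The Mellin transform -/

/-- the even entire function of the family -/
noncomputable def EE (F : Fam) (D : ℝ) (s : ℂ) : ℂ :=
  ∏ i, Csh ((F.κ i : ℂ) ^ 2 * (s ^ 2 + ((F.c i * D : ℝ) : ℂ) ^ 2))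

/-- EE: the values of the even entire function -/
def S_ee : Prop := ∀ (F : Fam) (D : ℝ), 0 < D →
  Differentiable ℂ (EE F D) ∧ (∀ s : ℂ, EE F D (-s) = EE F D s) ∧
  (∀ σ t : ℝ, σ ≠ 0 → EE F D (σ + t * Complex.I) =
    ∏ i, Complex.cosh ((F.κ i : ℂ) * (((pp (F.c i * D) |σ| t : ℝ) : ℂ) +
      ((σ * t / pp (F.c i * D) |σ| t : ℝ) : ℂ) * Complex.I))) ∧
  (∀ σ : ℝ, EE F D σ =
    ((∏ i, Real.cosh (F.κ i * √(σ ^ 2 + (F.c i * D) ^ 2)) : ℝ) : ℂ)) ∧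
  (∀ σ t : ℝ, ‖EE F D (σ + t * Complex.I)‖ ≤
    ∏ i, Real.cosh (F.κ i * √(σ ^ 2 + (F.c i * D) ^ 2)))

/-- `s` times the Mellin transform of the dual function -/
noncomputable def YY (F : Fam) (D K : ℝ) (s : ℂ) : ℂ :=
  Complex.exp (-(s / 2) * (Real.log Real.pi : ℝ)) *
    Complex.exp ((s ^ 2 - D * s) / (2 * K * D)) *
    (Complex.Gamma (D / 2 + 1) / Complex.Gamma ((D - s) / 2 + 1)) *
    (EE F D s * EE F D (D - s) / (EE F D 0 * EE F D D))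

/-- the symmetric factor of the Mellin transform -/
noncomputable def KK (F : Fam) (D K : ℝ) (s : ℂ) : ℂ :=
  Complex.exp ((s ^ 2 - D * s) / (2 * K * D)) *
    (Complex.Gamma (D / 2 + 1) /
      (Complex.Gamma (s / 2 + 1) * Complex.Gamma ((D - s) / 2 + 1))) *
    (EE F D s * EE F D (D - s) / (EE F D 0 * EE F D D))

/-- the logarithmic derivative of `YY` at a negative real number, up to a small error -/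
noncomputable def alpha (F : Fam) (D K σ : ℝ) : ℝ :=
  -(1 / 2) * Real.log Real.pi + (2 * σ - D) / (2 * K * D) + 1 / 2 * dg ((D - σ) / 2 + 1) +
    ∑ i, F.κ i * (σ / √(σ ^ 2 + (F.c i * D) ^ 2) -
      (D - σ) / √((D - σ) ^ 2 + (F.c i * D) ^ 2))

/-- the integral on the line `Re s = c` -/
noncomputable def WW (Y : ℂ → ℂ) (c ρ : ℝ) : ℂ :=
  ∫ t : ℝ, Y (c + t * Complex.I) / (c + t * Complex.I) *
    Complex.exp (-(c + t * Complex.I) * ρ)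

/-- SHIFT -/
def S_shift : Prop := ∀ (Y : ℂ → ℂ) (A B M ε : ℝ), 0 < A → 0 < B → 0 < ε →
  Differentiable ℂ Y →
  (∀ s : ℂ, -A ≤ s.re → s.re ≤ B → ‖Y s‖ ≤ M * Real.exp (-ε * s.im ^ 2)) →
  ∀ ρ : ℝ, (∀ c : ℝ, 0 < c → c ≤ B → WW Y c ρ = WW Y B ρ) ∧
    (∀ c : ℝ, -A ≤ c → c < 0 → WW Y B ρ - WW Y c ρ = 2 * Real.pi * Y 0)

/-- the radial function with Mellin transform `π^(-s/2) Γ(s/2) Kf(s) / 2` -/
noncomputable def vK (d : ℕ) (Kf : ℂ → ℂ) (x : EuclideanSpace ℝ (Fin d)) : ℂ :=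
  1 / (2 * Real.pi) * ∫ t : ℝ, 1 / 2 *
    Complex.exp (-(((d : ℂ) / 2 + t * Complex.I) / 2) * (Real.log Real.pi : ℝ)) *
    Complex.Gamma (((d : ℂ) / 2 + t * Complex.I) / 2) * Kf ((d : ℂ) / 2 + t * Complex.I) *
    Complex.exp (-((d : ℂ) / 2 + t * Complex.I) * (Real.log ‖x‖ : ℝ))

/-- DUAL -/
def S_dual : Prop := ∀ d : ℕ, 0 < d → ∀ Kf : ℂ → ℂ, Continuous Kf →
  (∀ s : ℂ, Kf (d - s) = Kf s) →
  Integrable (fun t : ℝ => Complex.Gamma (((d : ℂ) / 2 + t * Complex.I) / 2) *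
    Kf ((d : ℂ) / 2 + t * Complex.I)) →
  AEStronglyMeasurable (vK d Kf) volume ∧
  ∀ f : EuclideanSpace ℝ (Fin d) → ℂ, Continuous f → Integrable f → Integrable (𝓕 f) →
    ∫ x, 𝓕 f x * vK d Kf x = ∫ x, f x * vK d Kf x

/-! ### The estimates of `YY` -/

/-- YB: rough bound on a strip -/
def S_yb : Prop := ∀ (F : Fam) (D K A : ℝ), 0 < D → 0 < K → 0 < A → ∃ M : ℝ, ∀ s : ℂ,
  -A ≤ s.re → s.re ≤ D / 2 → ‖YY F D K s‖ ≤ M * Real.exp (-(1 / (4 * K * D)) * s.im ^ 2)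

/-- YP: `YY` is entire, and real and positive on the real line -/
def S_yp : Prop := ∀ (F : Fam) (D K : ℝ), 0 < D → 0 < K →
  Differentiable ℂ (YY F D K) ∧ YY F D K 0 = 1 ∧
  ∀ σ : ℝ, σ ≤ D → 0 < (YY F D K σ).re ∧ (YY F D K σ).im = 0

/-- KS: the symmetric factor -/
def S_ks : Prop := ∀ (F : Fam) (D K : ℝ), 0 < D → 0 < K →
  Continuous (KK F D K) ∧ (∀ s : ℂ, KK F D K (D - s) = KK F D K s) ∧
  (∀ t : ℝ, 1 / 2 * Complex.exp (-(((D : ℂ) / 2 + t * Complex.I) / 2) * (Real.log Real.pi : ℝ)) *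
    Complex.Gamma (((D : ℂ) / 2 + t * Complex.I) / 2) * KK F D K ((D : ℂ) / 2 + t * Complex.I) =
    YY F D K ((D / 2 : ℝ) + t * Complex.I) / ((D / 2 : ℝ) + t * Complex.I))

/-- C1: Gaussian bound on vertical lines -/
def S_c1 : Prop := ∀ K C η : ℝ, 0 < K → 0 < C → 0 < η → K * η ≤ 1 / 400 →
  ∀ F : Fam, Pot η C F → ∃ D0 : ℝ, 0 < D0 ∧ ∀ D : ℝ, D0 ≤ D →
  (∀ σ : ℝ, σ ≤ -(√(K * D) / 5) → ∀ t : ℝ,
    ‖YY F D K (σ + t * Complex.I)‖ ≤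
      101 / 100 * ‖YY F D K σ‖ * Real.exp (-(49 / 100) * t ^ 2 / (K * D))) ∧
  (∀ t : ℝ, ‖YY F D K ((9 / 10 * √(K * D) : ℝ) + t * Complex.I)‖ ≤
      101 / 100 * ‖YY F D K (9 / 10 * √(K * D) : ℝ)‖ *
        Real.exp (-(49 / 100) * t ^ 2 / (K * D)))

/-- C2: near the real axis -/
def S_c2 : Prop := ∀ K C η : ℝ, 0 < K → 0 < C → 0 < η → K * η ≤ 1 / 400 →
  ∀ F : Fam, Pot η C F → ∃ D0 : ℝ, 0 < D0 ∧ ∀ D : ℝ, D0 ≤ D →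
  ∀ σ : ℝ, σ ≤ -(√(K * D) / 5) → ∀ t : ℝ, |t| ≤ 3 * √(K * D) →
    ∃ m θ : ℝ, |θ| ≤ 1 / 1000 ∧
      99 / 100 * Real.exp (-(51 / 100) * t ^ 2 / (K * D)) ≤ m ∧
      YY F D K (σ + t * Complex.I) =
        YY F D K σ * (m : ℂ) * Complex.exp (((alpha F D K σ * t + θ : ℝ) : ℂ) * Complex.I)

/-- C3 -/
def S_c3 : Prop := ∀ (F : Fam) (D K : ℝ), 0 < D → 0 < K →
  ContinuousOn (alpha F D K) (Set.Iic 0)

/-- C4 -/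
def S_c4 : Prop := ∀ K C η : ℝ, 0 < K → 0 < C → 0 < η →
  ∀ F : Fam, Pot η C F → ∃ D0 : ℝ, 0 < D0 ∧ ∀ D : ℝ, D0 ≤ D →
  alpha F D K (-(C * D)) ≤ 1 / 2 * Real.log D - Real.log Real.pi - C / K + 2 * η

/-- C5 -/
def S_c5 : Prop := ∀ K C η : ℝ, 0 < K → 0 < C → 0 < η →
  ∀ F : Fam, Pot η C F → ∃ D0 : ℝ, 0 < D0 ∧ ∀ D : ℝ, D0 ≤ D →
  ‖YY F D K (-(C * D) : ℝ)‖ ≤ Real.exp (-(C * D) *
    (1 / 2 * Real.log D - Real.log Real.pi - (C + 1) / (2 * K) - 2 * η))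

/-- C6 -/
def S_c6 : Prop := ∀ K C η : ℝ, 0 < K → 0 < C → 0 < η → K * η ≤ 1 / 400 →
  ∀ F : Fam, Pot η C F → ∃ D0 : ℝ, 0 < D0 ∧ ∀ D : ℝ, D0 ≤ D →
  ‖YY F D K (9 / 10 * √(K * D) : ℝ)‖ ≤
    Real.exp (9 / 10 * √(K * D) * alpha F D K (-(√(K * D) / 5)) + 3 / 5)

/-! ### The dual function -/

/-- VV: the dual function of dimension `d`, for every `ε` -/
def S_vv : Prop := ∀ ε : ℝ, 0 < ε → ε ≤ 1 → ∃ d0 : ℕ, ∀ d : ℕ, d0 ≤ d →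
  ∃ v : EuclideanSpace ℝ (Fin d) → ℝ, AEStronglyMeasurable v volume ∧
    (∀ f : EuclideanSpace ℝ (Fin d) → ℂ, Continuous f → Integrable f → Integrable (𝓕 f) →
      (∀ x, (f x).im = 0) → (∀ x, (𝓕 f x).im = 0) →
      ∫ x, (𝓕 f x).re * v x = ∫ x, (f x).re * v x) ∧
    (∃ M : ℝ, ∀ x, x ≠ 0 → |v x| ≤ M) ∧
    (∀ x, x ≠ 0 → √d / Real.pi * Real.exp (-ε) ≤ ‖x‖ → v x ≤ 1) ∧
    (∀ x, x ≠ 0 → ‖x‖ ≤ √d / Real.pi * Real.exp (-ε) → |1 - v x| ≤ Real.exp (-(d : ℝ)))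

/-- VOL: volumes of balls -/
def S_vol : Prop :=
  (∀ ε : ℝ, 0 < ε → ∃ d0 : ℕ, ∀ d : ℕ, d0 ≤ d →
    (Real.exp 1 / (2 * Real.pi)) ^ ((d : ℝ) / 2) * Real.exp (-ε * d) ≤
      (√d / Real.pi) ^ d * (volume (Metric.ball (0 : EuclideanSpace ℝ (Fin d)) (1 / 2))).toReal) ∧
  (∃ d0 : ℕ, ∀ d : ℕ, d0 ≤ d →
    (volume (Metric.ball (0 : EuclideanSpace ℝ (Fin d)) (√d / Real.pi))).toReal ≤ Real.exp d)

/-- MAIN: the linear programming bound is at least `(e / 2π)^(d/2 + o(d))` -/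
def S_main : Prop := ∀ ε : ℝ, 0 < ε → ∃ d0 : ℕ, ∀ d : ℕ, d0 ≤ d →
  ∀ f : EuclideanSpace ℝ (Fin d) → ℂ, Continuous f → Integrable f → Integrable (𝓕 f) →
    (∀ x, (f x).im = 0) → (∀ x, (𝓕 f x).im = 0) → (∀ x, 0 ≤ (𝓕 f x).re) →
    (∀ x, 1 ≤ ‖x‖ → (f x).re ≤ 0) →
    (Real.exp 1 / (2 * Real.pi)) ^ ((d : ℝ) / 2) * Real.exp (-ε * d) * (𝓕 f 0).re ≤
      (volume (Metric.ball (0 : EuclideanSpace ℝ (Fin d)) (1 / 2))).toReal * (f 0).re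

end Pool.Agent.TH41.LP
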